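import Mathlib
import Pool.Agent.H217R3.AK.Basic

set_option autoImplicit false

/-! # Counting linear relations between differences lying in kernels of projections -/

open Finset
open scoped Pointwise

namespace Pool.Agent.H217R3.AK

/-- the functional `x - y` -/
def psi (z : ℤ × ℤ) : ℤ := z.1 - z.2

/-- the determinant -/
def det (u v : ℤ × ℤ) : ℤ := u.1 * v.2 - u.2 * v.1

theorem psi_smul (a : ℤ) (z : ℤ × ℤ) : psi (a • z) = a * psi z := by
  simp only [psi, Prod.smul_fst, Prod.smul_snd, smul_eq_mul]; ring

theorem psi_add (y z : ℤ × ℤ) : psi (y + z) = psi y + psi z := by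
  simp only [psi, Prod.fst_add, Prod.snd_add]; ring

theorem psi_sum {ι : Type*} (s : Finset ι) (v : ι → ℤ × ℤ) :
    psi (∑ i ∈ s, v i) = ∑ i ∈ s, psi (v i) := by
  simp only [psi, Prod.fst_sum, Prod.snd_sum, Finset.sum_sub_distrib]

theorem det_smul_right (a : ℤ) (y z : ℤ × ℤ) : det y (a • z) = a * det y z := by
  simp only [det, Prod.smul_fst, Prod.smul_snd, smul_eq_mul]; ring

theorem det_smul_left (a : ℤ) (y z : ℤ × ℤ) : det (a • y) z = a * det y z := by
  simp only [det, Prod.smul_fst, Prod.smul_snd, smul_eq_mul]; ring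

theorem det_add_right (x y z : ℤ × ℤ) : det x (y + z) = det x y + det x z := by
  simp only [det, Prod.fst_add, Prod.snd_add]; ring

theorem det_sum {ι : Type*} (s : Finset ι) (x : ℤ × ℤ) (v : ι → ℤ × ℤ) :
    det x (∑ i ∈ s, v i) = ∑ i ∈ s, det x (v i) := by
  simp only [det, Prod.fst_sum, Prod.snd_sum, Finset.mul_sum, ← Finset.sum_sub_distrib]

theorem det_self (x : ℤ × ℤ) : det x x = 0 := by
  simp only [det]; ring

theorem smul_inj_of_psi {e : ℤ × ℤ} (he : psi e ≠ 0) {s t : ℤ} (h : s • e = t • e) : s = t := by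
  have := congrArg psi h
  rw [psi_smul, psi_smul] at this
  exact mul_right_cancel₀ he this

theorem count (n : ℕ) : ∀ (e : Fin (n + 1) → ℤ × ℤ), (∀ i, psi (e i) ≠ 0) →
    (∀ i j, i ≠ j → det (e i) (e j) ≠ 0) → ∀ m : ℕ, ∃ M : ℕ, ∀ (A : Finset (ℤ × ℤ)), A.Nonempty →
    ∀ P : ℕ, (∀ c : ℤ, ((BB A M).filter (fun z => psi z = c)).card ≤ P) →
    ∀ T : Fin (n + 1) → Finset ℤ, (∀ i, ∀ t ∈ T i, t • e i ∈ BB A m) → ∀ w : ℤ × ℤ,
    ((Fintype.piFinset T).filter (fun t => ∑ i, t i • e i = w)).card ≤ P ^ n := by
  induction n with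
  | zero =>
    intro e he _ m
    refine ⟨0, fun A hA P _ T _ w => ?_⟩
    rw [pow_zero, Finset.card_le_one]
    intro t ht t' ht'
    rw [mem_filter] at ht ht'
    have h1 : t 0 • e 0 = w := by simpa using ht.2
    have h2 : t' 0 • e 0 = w := by simpa using ht'.2
    funext i
    have hi : i = 0 := Fin.eq_zero i
    subst hi
    exact smul_inj_of_psi (he 0) (h1.trans h2.symm)
  | succ n ih =>
    intro e he hdet m
    set D : ℤ := ∏ j : Fin (n + 1), psi (e j.succ) with hD
    set a : Fin (n + 1) → ℤ := fun j => det (e 0) (e j.succ) *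
      ∏ l ∈ univ.erase j, psi (e l.succ) with ha
    have ha1 : ∀ j, a j * psi (e j.succ) = det (e 0) (e j.succ) * D := by
      intro j
      simp only [ha]
      rw [hD, ← Finset.mul_prod_erase univ (fun l : Fin (n + 1) => psi (e l.succ)) (mem_univ j)]
      ring
    have ha0 : ∀ j, a j ≠ 0 := by
      intro j
      simp only [ha]
      refine mul_ne_zero (hdet 0 j.succ (Fin.succ_ne_zero j).symm) ?_
      exact Finset.prod_ne_zero_iff.2 fun l _ => he _
    set m' : ℕ := (∑ j, (a j).natAbs) * m with hm'
    have hm'j : ∀ j, (a j).natAbs * m ≤ m' := by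
      intro j
      rw [hm']
      exact Nat.mul_le_mul_right m
        (Finset.single_le_sum (f := fun j => (a j).natAbs) (fun _ _ => Nat.zero_le _) (mem_univ j))
    obtain ⟨M₁, hM₁⟩ := ih (fun j => a j • e j.succ)
      (fun j => by rw [psi_smul]; exact mul_ne_zero (ha0 j) (he _))
      (fun i j hij => by
        rw [det_smul_left, det_smul_right]
        exact mul_ne_zero (ha0 i) (mul_ne_zero (ha0 j)
          (hdet _ _ fun h => hij (Fin.succ_injective _ h)))) m'
    refine ⟨max M₁ ((n + 1) * m'), fun A hA P hP T hT w => ?_⟩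
    have hP₁ : ∀ c : ℤ, ((BB A M₁).filter (fun z => psi z = c)).card ≤ P := by
      intro c
      refine le_trans (Finset.card_le_card ?_) (hP c)
      intro z hz
      rw [mem_filter] at hz ⊢
      exact ⟨BB_mono hA (le_max_left _ _) hz.1, hz.2⟩
    have hT' : ∀ j : Fin (n + 1), ∀ t ∈ T j.succ, t • (a j • e j.succ) ∈ BB A m' := by
      intro j t ht
      have h1 := BB_zsmul hA (hT j.succ t ht) (a j)
      rw [smul_comm] at h1
      exact BB_mono hA (hm'j j) h1
    have hIH := hM₁ A hA P hP₁ (fun j => T j.succ) hT'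
    set X := (Fintype.piFinset T).filter (fun t => ∑ i, t i • e i = w) with hX
    set W := (BB A (max M₁ ((n + 1) * m'))).filter (fun z => psi z = det (e 0) w * D) with hW
    set f : (Fin (n + 2) → ℤ) → ℤ × ℤ := fun t => ∑ j : Fin (n + 1), t j.succ • (a j • e j.succ)
      with hf
    have hmaps : ∀ t ∈ X, f t ∈ W := by
      intro t ht
      rw [hX, mem_filter, Fintype.mem_piFinset] at ht
      rw [hW, mem_filter]
      constructor
      · apply BB_mono hA (le_max_right _ _)
        exact BB_sum hA _ fun j => hT' j _ (ht.1 j.succ)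
      · simp only [hf]
        rw [psi_sum]
        have h1 : det (e 0) w = ∑ j : Fin (n + 1), t j.succ * det (e 0) (e j.succ) := by
          rw [← ht.2, Fin.sum_univ_succ, det_add_right, det_smul_right, det_self, mul_zero,
            zero_add, det_sum]
          exact Finset.sum_congr rfl fun j _ => det_smul_right _ _ _
        rw [h1, Finset.sum_mul]
        refine Finset.sum_congr rfl fun j _ => ?_
        rw [psi_smul, psi_smul, ha1]
        ring
    have hfib : ∀ w' ∈ W, (X.filter (fun t => f t = w')).card ≤ P ^ n := by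
      intro w' _
      refine le_trans ?_ (hIH w')
      apply Finset.card_le_card_of_injOn (fun t : Fin (n + 2) → ℤ => fun j : Fin (n + 1) => t j.succ)
      · intro t ht
        simp only [coe_filter, Set.mem_ofPred_eq, Fintype.mem_piFinset] at ht ⊢
        rw [hX, mem_filter, Fintype.mem_piFinset] at ht
        exact ⟨fun j => ht.1.1 j.succ, ht.2⟩
      · intro t ht t' ht' h
        simp only [coe_filter, Set.mem_ofPred_eq] at ht ht'
        rw [hX, mem_filter] at ht ht'
        have hj : ∀ j : Fin (n + 1), t j.succ = t' j.succ := fun j => congrFun h j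
        have h1 : t 0 • e 0 + ∑ j : Fin (n + 1), t j.succ • e j.succ =
            t' 0 • e 0 + ∑ j : Fin (n + 1), t' j.succ • e j.succ := by
          rw [← Fin.sum_univ_succ (fun i => t i • e i), ← Fin.sum_univ_succ (fun i => t' i • e i)]
          exact ht.1.2.trans ht'.1.2.symm
        have h2 : ∑ j : Fin (n + 1), t j.succ • e j.succ = ∑ j : Fin (n + 1), t' j.succ • e j.succ :=
          Finset.sum_congr rfl fun j _ => by rw [hj j]
        rw [h2] at h1
        have h0 := smul_inj_of_psi (he 0) (add_right_cancel h1)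
        funext i
        refine Fin.cases h0 (fun j => hj j) i
    have hcard := Finset.card_le_mul_card_image_of_maps_to hmaps (P ^ n) hfib
    calc X.card ≤ P ^ n * W.card := hcard
      _ ≤ P ^ n * P := Nat.mul_le_mul_left _ (hP _)
      _ = P ^ (n + 1) := (pow_succ _ _).symm

/-- a fibre of the functional `det e` of average size -/
theorem fiber {e : ℤ × ℤ} (he : IsCoprime e.1 e.2) {A : Finset (ℤ × ℤ)} (hA : A.Nonempty) :
    ∃ T : Finset ℤ, (∀ t ∈ T, t • e ∈ BB A 1) ∧ A.card ≤ (A.image (det e)).card * T.card := by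
  obtain ⟨u, v, huv⟩ := he
  obtain ⟨c, hc, hmax⟩ := Finset.exists_max_image (A.image (det e))
    (fun c => (A.filter (fun z => det e z = c)).card) (hA.image _)
  rw [mem_image] at hc
  obtain ⟨z0, hz0, hz0c⟩ := hc
  refine ⟨(A.filter (fun z => det e z = c)).image (fun z => u * (z - z0).1 + v * (z - z0).2), ?_, ?_⟩
  · intro t ht
    rw [mem_image] at ht
    obtain ⟨z, hz, rfl⟩ := ht
    rw [mem_filter] at hz
    have h1 : e.1 * (z - z0).2 - e.2 * (z - z0).1 = 0 := by
      have h2 := hz.2
      rw [← hz0c] at h2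
      simp only [det] at h2
      simp only [Prod.fst_sub, Prod.snd_sub]
      linarith
    have h3 : (u * (z - z0).1 + v * (z - z0).2) • e = z - z0 := by
      apply Prod.ext
      · simp only [Prod.smul_fst, smul_eq_mul]
        linear_combination v * h1 + (z - z0).1 * huv
      · simp only [Prod.smul_snd, smul_eq_mul]
        linear_combination (-u) * h1 + (z - z0).2 * huv
    rw [h3]
    exact mem_BB.2 ⟨z, by rw [sm_one]; exact hz.1, z0, by rw [sm_one]; exact hz0, rfl⟩
  · have h1 : ((A.filter (fun z => det e z = c)).image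
        (fun z => u * (z - z0).1 + v * (z - z0).2)).card =
        (A.filter (fun z => det e z = c)).card := by
      apply Finset.card_image_of_injOn
      intro z hz z' hz' h
      simp only [coe_filter, Set.mem_ofPred_eq] at hz hz'
      have h1 : e.1 * (z - z').2 - e.2 * (z - z').1 = 0 := by
        have h2 := hz.2
        rw [← hz'.2] at h2
        simp only [det] at h2
        simp only [Prod.fst_sub, Prod.snd_sub]
        linarith
      have h2 : u * (z - z').1 + v * (z - z').2 = 0 := by
        simp only [Prod.fst_sub, Prod.snd_sub] at h ⊢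
        linarith
      have h3 : (u * (z - z').1 + v * (z - z').2) • e = z - z' := by
        apply Prod.ext
        · simp only [Prod.smul_fst, smul_eq_mul]
          linear_combination v * h1 + (z - z').1 * huv
        · simp only [Prod.smul_snd, smul_eq_mul]
          linear_combination (-u) * h1 + (z - z').2 * huv
      rw [h2, zero_smul] at h3
      exact (sub_eq_zero.1 h3.symm)
    rw [h1, mul_comm]
    exact Finset.card_le_mul_card_image A _ (fun b hb => hmax b hb)

end Pool.Agent.H217R3.AK
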