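import Mathlib
import Pool.Agent.H217R3.AK.Count

set_option autoImplicit false

/-! # The main inequality of arithmetic Kakeya type for sets of small doubling -/

open Finset
open scoped Pointwise

namespace Pool.Agent.H217R3.AK

/-- fibres of `x - y` in `m A - m A` -/
theorem fib_mul {A : Finset (ℤ × ℤ)} (hA : A.Nonempty) (M : ℕ) (c : ℤ) :
    ((BB A M).filter (fun z => psi z = c)).card * (A.image psi).card ≤ (BB A (M + 1)).card := by
  classical
  obtain ⟨a0, ha0⟩ := hA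
  have hA : A.Nonempty := ⟨a0, ha0⟩
  have hg : ∀ s : ℤ, ∃ g : ℤ × ℤ, s ∈ A.image psi → g ∈ A ∧ psi g = s := by
    intro s
    by_cases hs : s ∈ A.image psi
    · obtain ⟨g, hg, hgs⟩ := mem_image.1 hs
      exact ⟨g, fun _ => ⟨hg, hgs⟩⟩
    · exact ⟨0, fun h => absurd h hs⟩
  choose g hg using hg
  rw [← Finset.card_product]
  apply Finset.card_le_card_of_injOn (fun p : (ℤ × ℤ) × ℤ => p.1 + (g p.2 - a0))
  · intro p hp
    rw [mem_coe, mem_product, mem_filter] at hp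
    rw [mem_coe]
    apply BB_add hp.1.1
    exact mem_BB.2 ⟨g p.2, by rw [sm_one]; exact (hg _ hp.2).1, a0, by rw [sm_one]; exact ha0, rfl⟩
  · intro p hp p' hp' h
    rw [mem_coe, mem_product, mem_filter] at hp hp'
    have h0 : p.1 + (g p.2 - a0) = p'.1 + (g p'.2 - a0) := h
    have h1 : psi p.1 + psi (g p.2) = psi p'.1 + psi (g p'.2) := by
      have h2 : p.1 + g p.2 = p'.1 + g p'.2 := by
        have h3 := congrArg (fun z => z + a0) h0
        simp only [add_assoc, sub_add_cancel] at h3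
        exact h3
      rw [← psi_add, ← psi_add, h2]
    rw [hp.1.2, hp'.1.2, (hg _ hp.2).2, (hg _ hp'.2).2] at h1
    have h4 : p.2 = p'.2 := add_left_cancel h1
    rw [h4] at h0
    exact Prod.ext (add_right_cancel h0) h4

theorem num (n M : ℕ) (K N Q R Tp P : ℝ) (hK : 0 ≤ K) (hN : 0 < N) (hQ : 0 ≤ Q) (hR : 0 ≤ R)
    (hP : 0 ≤ P) (h1 : P * Q ≤ K ^ (2 * (M + 1)) * N) (h2 : Tp ≤ P ^ n * (K ^ (2 * (n + 1)) * N))
    (h3 : N ^ (n + 1) ≤ R * Tp) : Q ^ n ≤ K ^ ((2 * (M + 1)) * n + 2 * (n + 1)) * R := by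
  have hQn : 0 ≤ Q ^ n := pow_nonneg hQ n
  have hKN : 0 ≤ K ^ (2 * (n + 1)) * N := mul_nonneg (pow_nonneg hK _) hN.le
  have h4 : Q ^ n * N ^ (n + 1) ≤ (K ^ ((2 * (M + 1)) * n + 2 * (n + 1)) * R) * N ^ (n + 1) := by
    calc Q ^ n * N ^ (n + 1) ≤ Q ^ n * (R * Tp) := mul_le_mul_of_nonneg_left h3 hQn
      _ ≤ Q ^ n * (R * (P ^ n * (K ^ (2 * (n + 1)) * N))) := by
          apply mul_le_mul_of_nonneg_left _ hQn
          exact mul_le_mul_of_nonneg_left h2 hR
      _ = (P * Q) ^ n * (R * (K ^ (2 * (n + 1)) * N)) := by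
          rw [mul_pow]; ring
      _ ≤ (K ^ (2 * (M + 1)) * N) ^ n * (R * (K ^ (2 * (n + 1)) * N)) := by
          apply mul_le_mul_of_nonneg_right _ (mul_nonneg hR hKN)
          exact pow_le_pow_left₀ (mul_nonneg hP hQ) h1 n
      _ = _ := by
          rw [mul_pow, ← pow_mul, pow_add, pow_succ N]; ring
  exact le_of_mul_le_mul_right h4 (pow_pos hN _)

/-- the main inequality in terms of the sets `m A - m A` -/
theorem main (n : ℕ) (e : Fin (n + 1) → ℤ × ℤ) (hpsi : ∀ i, psi (e i) ≠ 0)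
    (hdet : ∀ i j, i ≠ j → det (e i) (e j) ≠ 0) (hcop : ∀ i, IsCoprime (e i).1 (e i).2) :
    ∃ C : ℕ, ∀ (A : Finset (ℤ × ℤ)), A.Nonempty → ∀ K : ℝ, 0 ≤ K →
      (∀ m, ((BB A m).card : ℝ) ≤ K ^ (2 * m) * A.card) →
      ((A.image psi).card : ℝ) ^ n ≤ K ^ C * ∏ i, ((A.image (det (e i))).card : ℝ) := by
  obtain ⟨M, hM⟩ := count n e hpsi hdet 1
  refine ⟨(2 * (M + 1)) * n + 2 * (n + 1), fun A hA K hK hB => ?_⟩
  choose T hT1 hT2 using fun i => fiber (hcop i) hA
  -- the largest fibre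
  obtain ⟨P, hP1, hP2⟩ : ∃ P : ℕ, (∀ c : ℤ, ((BB A M).filter (fun z => psi z = c)).card ≤ P) ∧
      P * (A.image psi).card ≤ (BB A (M + 1)).card := by
    obtain ⟨c, _, hmax⟩ := Finset.exists_max_image ((BB A M).image psi)
      (fun c => ((BB A M).filter (fun z => psi z = c)).card) (Finset.Nonempty.image ⟨0, BB_zero_mem hA M⟩ psi)
    refine ⟨_, fun c' => ?_, fib_mul hA M c⟩
    by_cases h : c' ∈ (BB A M).image psi
    · exact hmax c' h
    · rw [Finset.filter_eq_empty_iff.2]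
      · simp
      · intro z hz hzc
        exact h (mem_image.2 ⟨z, hz, hzc⟩)
  have hcount := hM A hA P hP1 T hT1
  -- tuples
  have htup : ∏ i, (T i).card ≤ P ^ n * (BB A (n + 1)).card := by
    rw [← Fintype.card_piFinset]
    have hmaps : ∀ t ∈ Fintype.piFinset T, ∑ i, t i • e i ∈ BB A (n + 1) := by
      intro t ht
      rw [Fintype.mem_piFinset] at ht
      have := BB_sum hA (fun i => t i • e i) (fun i => hT1 i _ (ht i))
      rwa [mul_one] at this
    exact Finset.card_le_mul_card_image_of_maps_to hmaps (P ^ n) (fun w _ => hcount w)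
  -- real numbers
  have hc : (0 : ℝ) < A.card := by exact_mod_cast hA.card_pos
  set N : ℝ := (A.card : ℝ) with hN
  set Q : ℝ := ((A.image psi).card : ℝ) with hQ
  have hQ0 : 0 ≤ Q := Nat.cast_nonneg _
  have h1 : (P : ℝ) * Q ≤ K ^ (2 * (M + 1)) * N := by
    refine le_trans ?_ (hB (M + 1))
    rw [hQ]
    exact_mod_cast hP2
  have h2 : (∏ i, ((T i).card : ℝ)) ≤ (P : ℝ) ^ n * (K ^ (2 * (n + 1)) * N) := by
    calc (∏ i, ((T i).card : ℝ)) = ((∏ i, (T i).card : ℕ) : ℝ) := by push_cast; rfl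
      _ ≤ ((P ^ n * (BB A (n + 1)).card : ℕ) : ℝ) := by exact_mod_cast htup
      _ = (P : ℝ) ^ n * ((BB A (n + 1)).card : ℝ) := by push_cast; rfl
      _ ≤ _ := mul_le_mul_of_nonneg_left (hB (n + 1)) (pow_nonneg (Nat.cast_nonneg _) _)
  have h3 : N ^ (n + 1) ≤ (∏ i, ((A.image (det (e i))).card : ℝ)) * ∏ i, ((T i).card : ℝ) := by
    rw [← Finset.prod_mul_distrib]
    calc N ^ (n + 1) = ∏ _i : Fin (n + 1), N := by
          rw [Finset.prod_const, Finset.card_univ, Fintype.card_fin]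
      _ ≤ _ := Finset.prod_le_prod (fun _ _ => hc.le) (fun i _ => by
          rw [hN]; exact_mod_cast hT2 i)
  set R : ℝ := ∏ i, ((A.image (det (e i))).card : ℝ) with hR
  have hR0 : 0 ≤ R := Finset.prod_nonneg fun _ _ => Nat.cast_nonneg _
  have hP0 : (0 : ℝ) ≤ P := Nat.cast_nonneg P
  exact num n M K N Q R _ P hK hc hQ0 hR0 hP0 h1 h2 h3

end Pool.Agent.H217R3.AK
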