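import Mathlib
import Pool.Agent.H217R3.AK.Main

set_option autoImplicit false

/-! # The inequality for rational slopes -/

open Finset
open scoped Pointwise

namespace Pool.Agent.H217R3.AK

/-- the projection of slope `r` -/
def proj (r : ℚ) (A : Finset (ℤ × ℤ)) : Finset ℚ :=
  A.image (fun p : ℤ × ℤ => (p.1 : ℚ) + r * (p.2 : ℚ))

/-- the projection of slope `∞` -/
def projInf (A : Finset (ℤ × ℤ)) : Finset ℚ := A.image (fun p : ℤ × ℤ => (p.2 : ℚ))

theorem card_psi (A : Finset (ℤ × ℤ)) : (A.image psi).card = (proj (-1) A).card := by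
  have h : proj (-1) A = (A.image psi).image (fun t : ℤ => (t : ℚ)) := by
    unfold proj
    rw [Finset.image_image]
    congr 1
    funext p
    simp only [Function.comp, psi]
    push_cast; ring
  rw [h, Finset.card_image_of_injective _ Int.cast_injective]

/-- direction of the kernel of the projection of slope `r` -/
def dir (r : ℚ) : ℤ × ℤ := (-r.num, (r.den : ℤ))

theorem card_det_dir (r : ℚ) (A : Finset (ℤ × ℤ)) : (A.image (det (dir r))).card ≤ (proj r A).card := by
  have h : (A.image (det (dir r))).image (fun t : ℤ => (t : ℚ)) =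
      (proj r A).image (fun q : ℚ => -(r.den : ℚ) * q) := by
    unfold proj
    rw [Finset.image_image, Finset.image_image]
    congr 1
    funext p
    simp only [Function.comp, det, dir]
    push_cast
    have h1 : (r.den : ℚ) * r = r.num := by
      rw [mul_comm]; exact Rat.mul_den_eq_num r
    linear_combination (p.2 : ℚ) * h1
  calc (A.image (det (dir r))).card
      = ((A.image (det (dir r))).image (fun t : ℤ => (t : ℚ))).card :=
        (Finset.card_image_of_injective _ Int.cast_injective).symm
    _ = _ := by rw [h]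
    _ ≤ (proj r A).card := Finset.card_image_le

theorem card_det_inf (A : Finset (ℤ × ℤ)) : (A.image (det (1, 0))).card ≤ (projInf A).card := by
  have h : (A.image (det (1, 0))).image (fun t : ℤ => (t : ℚ)) = projInf A := by
    unfold projInf
    rw [Finset.image_image]
    congr 1
    funext p
    simp only [Function.comp, det]
    push_cast; ring
  rw [← h, Finset.card_image_of_injective _ Int.cast_injective]

theorem slopes (S : Finset ℚ) (hS : (-1 : ℚ) ∉ S) : ∃ C : ℕ, ∀ (A : Finset (ℤ × ℤ)), A.Nonempty →
    ∀ K : ℝ, 0 ≤ K → (∀ m, ((BB A m).card : ℝ) ≤ K ^ (2 * m) * A.card) →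
    ((proj (-1) A).card : ℝ) ^ S.card ≤
      K ^ C * ((projInf A).card * ∏ r ∈ S, ((proj r A).card : ℝ)) := by
  classical
  set n := S.card with hn
  set g : Fin n ≃ S := (S.equivFin).symm with hg
  set e : Fin (n + 1) → ℤ × ℤ := Fin.cons (1, 0) (fun i => dir (g i : ℚ)) with he
  have he0 : e 0 = (1, 0) := rfl
  have hes : ∀ i : Fin n, e i.succ = dir (g i : ℚ) := fun i => rfl
  have hdirne : ∀ i : Fin n, ∀ j : Fin n, i ≠ j → det (dir (g i : ℚ)) (dir (g j : ℚ)) ≠ 0 := by
    intro i j hij h
    apply hij
    apply g.injective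
    apply Subtype.ext
    simp only [det, dir] at h
    have h1 : (g i : ℚ).num * ((g j : ℚ).den : ℤ) = (g j : ℚ).num * ((g i : ℚ).den : ℤ) := by
      linarith
    exact Rat.eq_iff_mul_eq_mul.2 h1
  have hpsi : ∀ i, psi (e i) ≠ 0 := by
    intro i
    refine Fin.cases ?_ (fun i => ?_) i
    · rw [he0]; simp [psi]
    · rw [hes]
      intro h
      simp only [psi, dir] at h
      apply hS
      have h1 : (g i : ℚ) = -1 := by
        rw [← Rat.num_div_den (g i : ℚ)]
        have h2 : ((g i : ℚ).den : ℚ) ≠ 0 := by
          exact_mod_cast (g i : ℚ).den_nz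
        rw [div_eq_iff h2]
        have h3 : (g i : ℚ).num = -((g i : ℚ).den : ℤ) := by linarith
        rw [h3]; push_cast; ring
      rw [← h1]
      exact (g i).2
  have hdet : ∀ i j, i ≠ j → det (e i) (e j) ≠ 0 := by
    intro i j
    refine Fin.cases ?_ (fun i => ?_) i
    · refine Fin.cases (fun h => absurd rfl h) (fun j _ => ?_) j
      rw [he0, hes]
      simp only [det, dir]
      have := (g j : ℚ).den_nz
      simpa using this
    · refine Fin.cases (fun _ => ?_) (fun j h => ?_) j
      · rw [he0, hes]
        simp only [det, dir]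
        have := (g i : ℚ).den_nz
        simpa using this
      · rw [hes, hes]
        exact hdirne i j (fun h' => h (by rw [h']))
  have hcop : ∀ i, IsCoprime (e i).1 (e i).2 := by
    intro i
    refine Fin.cases ?_ (fun i => ?_) i
    · rw [he0]; exact isCoprime_one_left
    · rw [hes]
      simp only [dir]
      rw [IsCoprime.neg_left_iff]
      exact Rat.isCoprime_num_den _
  obtain ⟨C, hC⟩ := main n e hpsi hdet hcop
  refine ⟨C, fun A hA K hK hB => ?_⟩
  have h := hC A hA K hK hB
  rw [card_psi] at h
  refine h.trans (mul_le_mul_of_nonneg_left ?_ (pow_nonneg hK _))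
  rw [Fin.prod_univ_succ, he0]
  apply mul_le_mul
  · exact_mod_cast card_det_inf A
  · calc ∏ i : Fin n, ((A.image (det (e i.succ))).card : ℝ)
        ≤ ∏ i : Fin n, ((proj (g i : ℚ) A).card : ℝ) :=
          Finset.prod_le_prod (fun _ _ => Nat.cast_nonneg _)
            (fun i _ => by rw [hes]; exact_mod_cast card_det_dir _ A)
      _ = ∏ r : S, ((proj (r : ℚ) A).card : ℝ) :=
          Fintype.prod_equiv g _ _ (fun i => rfl)
      _ = ∏ r ∈ S, ((proj r A).card : ℝ) :=
          Finset.prod_coe_sort S (fun r => ((proj r A).card : ℝ))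
      _ ≤ _ := le_rfl
  · exact Finset.prod_nonneg fun _ _ => Nat.cast_nonneg _
  · exact Nat.cast_nonneg _

end Pool.Agent.H217R3.AK
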