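import Mathlib
import Pool.Agent.H217R3.AK.Slopes
import Pool.Agent.H217R3.AK.Bsg

set_option autoImplicit false

/-! # Arithmetic Kakeya for sets of small doubling and for sets of large additive energy -/

open Finset
open scoped Pointwise

namespace Pool.Agent.H217R3.AK

/-- the largest of the projections with slope `∞` or in `S` -/
def big (S : Finset ℚ) (A : Finset (ℤ × ℤ)) : ℕ :=
  max (projInf A).card (S.sup fun r => (proj r A).card)

theorem card_le_add {A : Finset (ℤ × ℤ)} (hA : A.Nonempty) : A.card ≤ (A + A).card := by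
  exact Finset.card_le_card_add_right hA

/-- Part 1 -/
theorem part1 (S : Finset ℚ) (hS : (-1 : ℚ) ∉ S) : ∃ C : ℕ, ∀ (A : Finset (ℤ × ℤ)), A.Nonempty →
    ∀ K : ℝ, ((A + A).card : ℝ) ≤ K * A.card →
    ((proj (-1) A).card : ℝ) ^ S.card ≤
      K ^ C * ((projInf A).card * ∏ r ∈ S, ((proj r A).card : ℝ)) := by
  obtain ⟨C, hC⟩ := slopes S hS
  refine ⟨C, fun A hA K hK => ?_⟩
  have hc : (0 : ℝ) < A.card := by exact_mod_cast hA.card_pos
  have hK0 : 0 ≤ K := by
    by_contra h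
    have h1 : K * (A.card : ℝ) < 0 := mul_neg_of_neg_of_pos (not_le.1 h) hc
    have h2 : (0 : ℝ) ≤ ((A + A).card : ℝ) := Nat.cast_nonneg _
    linarith
  exact hC A hA K hK0 (card_BB_of_add hA hK)

theorem proj_nonempty {A : Finset (ℤ × ℤ)} (hA : A.Nonempty) (r : ℚ) : (proj r A).Nonempty :=
  hA.image _

theorem big_pos {S : Finset ℚ} {A : Finset (ℤ × ℤ)} (hA : A.Nonempty) : 1 ≤ big S A :=
  le_trans (Finset.card_pos.2 (hA.image _)) (le_max_left _ _)

theorem proj_le_big {S : Finset ℚ} {r : ℚ} (hr : r ∈ S) (A : Finset (ℤ × ℤ)) :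
    (proj r A).card ≤ big S A :=
  le_trans (Finset.le_sup (f := fun r => (proj r A).card) hr) (le_max_right _ _)

theorem prod_le_big (S : Finset ℚ) {A B : Finset (ℤ × ℤ)} (hBA : B ⊆ A) :
    ((projInf B).card : ℝ) * ∏ r ∈ S, ((proj r B).card : ℝ) ≤ (big S A : ℝ) ^ (S.card + 1) := by
  have h1 : ((projInf B).card : ℝ) ≤ (big S A : ℝ) := by
    have : (projInf B).card ≤ big S A :=
      (Finset.card_le_card (Finset.image_subset_image hBA)).trans (le_max_left _ _)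
    exact_mod_cast this
  have h2 : ∏ r ∈ S, ((proj r B).card : ℝ) ≤ ∏ _r ∈ S, (big S A : ℝ) := by
    refine Finset.prod_le_prod (fun _ _ => Nat.cast_nonneg _) (fun r hr => ?_)
    have : (proj r B).card ≤ big S A :=
      (Finset.card_le_card (Finset.image_subset_image hBA)).trans (proj_le_big hr A)
    exact_mod_cast this
  rw [Finset.prod_const] at h2
  rw [pow_succ, mul_comm]
  exact mul_le_mul h2 h1 (Nat.cast_nonneg _) (pow_nonneg (Nat.cast_nonneg _) _)

theorem card_le_sq {S : Finset ℚ} (h0 : (0 : ℚ) ∈ S) (A : Finset (ℤ × ℤ)) :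
    A.card ≤ big S A ^ 2 := by
  have h1 : A.card ≤ (projInf A ×ˢ proj 0 A).card := by
    apply Finset.card_le_card_of_injOn (fun p : ℤ × ℤ => ((p.2 : ℚ), (p.1 : ℚ) + 0 * (p.2 : ℚ)))
    · intro p hp
      rw [mem_coe] at hp ⊢
      rw [mem_product]
      exact ⟨mem_image_of_mem _ hp, mem_image_of_mem (fun p : ℤ × ℤ => (p.1 : ℚ) + 0 * (p.2 : ℚ)) hp⟩
    · intro p _ q _ h
      simp only [Prod.mk.injEq, zero_mul, add_zero, Int.cast_inj] at h
      exact Prod.ext h.2 h.1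
  rw [Finset.card_product] at h1
  rw [sq]
  exact h1.trans (Nat.mul_le_mul (le_max_left _ _) (proj_le_big h0 A))

theorem big_mono {S S' : Finset ℚ} (h : S ⊆ S') (A : Finset (ℤ × ℤ)) : big S A ≤ big S' A :=
  max_le_max le_rfl (Finset.sup_mono h)

/-- the first `n` natural numbers as slopes -/
def rng (n : ℕ) : Finset ℚ := (Finset.range n).image (fun i : ℕ => (i : ℚ))

theorem card_rng (n : ℕ) : (rng n).card = n := by
  unfold rng
  rw [Finset.card_image_of_injective _ Nat.cast_injective, Finset.card_range]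

theorem neg_one_notMem_rng (n : ℕ) : (-1 : ℚ) ∉ rng n := by
  unfold rng
  intro h
  obtain ⟨i, _, hi⟩ := mem_image.1 h
  have : (0 : ℚ) ≤ (i : ℚ) := Nat.cast_nonneg i
  rw [hi] at this
  norm_num at this

theorem zero_mem_rng {n : ℕ} (hn : 1 ≤ n) : (0 : ℚ) ∈ rng n := by
  unfold rng
  exact mem_image.2 ⟨0, mem_range.2 hn, by simp⟩

theorem rng_mono {n m : ℕ} (h : n ≤ m) : rng n ⊆ rng m :=
  Finset.image_subset_image (Finset.range_subset_range.2 h)

theorem root_step {n : ℕ} (hn : 1 ≤ n) {ε M N : ℝ} (hε : 2 / ε ≤ n) (hε0 : 0 < ε) (hM : 0 ≤ M)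
    (hN : 1 ≤ N) (h : M ^ n ≤ N ^ (n + 2)) : M ≤ N ^ (1 + ε) := by
  have hn0 : (0 : ℝ) < n := by exact_mod_cast hn
  have h1 : M ^ n ≤ (N ^ (1 + ε)) ^ n := by
    refine h.trans ?_
    rw [← Real.rpow_natCast, ← Real.rpow_natCast, ← Real.rpow_mul (by linarith)]
    apply Real.rpow_le_rpow_of_exponent_le hN
    push_cast
    rw [div_le_iff₀ hε0] at hε
    nlinarith
  exact le_of_pow_le_pow_left₀ (by omega) (Real.rpow_nonneg (by linarith) _) h1

/-- Part 2 -/
theorem part2 (ε : ℝ) (hε : 0 < ε) : ∃ S : Finset ℚ, (-1 : ℚ) ∉ S ∧ ∃ δ : ℝ, 0 < δ ∧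
    ∀ A : Finset (ℤ × ℤ), ((A + A).card : ℝ) ≤ (A.card : ℝ) ^ (1 + δ) →
      ((proj (-1) A).card : ℝ) ≤ (big S A : ℝ) ^ (1 + ε) := by
  obtain ⟨n, hn⟩ := exists_nat_ge (2 / ε + 1)
  have hn1 : 1 ≤ n := by
    have : (1 : ℝ) ≤ n := le_trans (by linarith [div_pos two_pos hε]) hn
    exact_mod_cast this
  obtain ⟨C, hC⟩ := part1 (rng n) (neg_one_notMem_rng n)
  refine ⟨rng n, neg_one_notMem_rng n, 1 / (2 * (C + 1)), by positivity, fun A h => ?_⟩
  rcases A.eq_empty_or_nonempty with rfl | hA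
  · simp only [proj, Finset.image_empty, Finset.card_empty, Nat.cast_zero]
    exact Real.rpow_nonneg (Nat.cast_nonneg _) _
  have hc : (1 : ℝ) ≤ A.card := by exact_mod_cast hA.card_pos
  set δ : ℝ := 1 / (2 * ((C : ℝ) + 1)) with hδ
  have h1 := hC A hA ((A.card : ℝ) ^ δ) (by
    rw [Real.rpow_add (by linarith), Real.rpow_one] at h
    linarith)
  have hbig : (1 : ℝ) ≤ (big (rng n) A : ℝ) := by exact_mod_cast big_pos hA
  have h2 : ((A.card : ℝ) ^ δ) ^ C ≤ (big (rng n) A : ℝ) := by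
    rw [← Real.rpow_natCast, ← Real.rpow_mul (by linarith)]
    have h3 : (A.card : ℝ) ≤ (big (rng n) A : ℝ) ^ 2 := by
      exact_mod_cast card_le_sq (zero_mem_rng hn1) A
    have h4 : δ * C ≤ 1 / 2 := by
      rw [hδ, div_mul_eq_mul_div, one_mul, div_le_div_iff₀ (by positivity) (by norm_num)]
      linarith
    calc (A.card : ℝ) ^ (δ * C) ≤ (A.card : ℝ) ^ (1 / 2 : ℝ) :=
          Real.rpow_le_rpow_of_exponent_le hc h4
      _ ≤ ((big (rng n) A : ℝ) ^ 2) ^ (1 / 2 : ℝ) :=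
          Real.rpow_le_rpow (by linarith) h3 (by norm_num)
      _ = (big (rng n) A : ℝ) := by
          rw [← Real.rpow_natCast, ← Real.rpow_mul (by linarith)]
          norm_num
  apply root_step hn1 (by linarith) hε (Nat.cast_nonneg _) hbig
  rw [card_rng] at h1
  calc ((proj (-1) A).card : ℝ) ^ n ≤ _ := h1
    _ ≤ (big (rng n) A : ℝ) * (big (rng n) A : ℝ) ^ ((rng n).card + 1) := by
        apply mul_le_mul h2 (prod_le_big (rng n) (Finset.Subset.refl A)) _ (by linarith)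
        exact mul_nonneg (Nat.cast_nonneg _) (Finset.prod_nonneg fun _ _ => Nat.cast_nonneg _)
    _ = _ := by rw [card_rng]; ring

/-- for few points some slope of `rng L` gives an injective projection -/
theorem small_sets {A : Finset (ℤ × ℤ)} {L : ℕ} (hL : A.card ^ 2 < L) :
    A.card ≤ big (rng L) A := by
  classical
  set bad : Finset ℚ := (A ×ˢ A).image
    (fun w : (ℤ × ℤ) × (ℤ × ℤ) => ((w.2.1 : ℚ) - w.1.1) / ((w.1.2 : ℚ) - w.2.2)) with hbad
  have hcard : bad.card < (rng L).card := by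
    rw [card_rng]
    refine lt_of_le_of_lt Finset.card_image_le ?_
    rw [Finset.card_product, ← sq]
    exact hL
  obtain ⟨r, hr, hrb⟩ := Finset.exists_mem_notMem_of_card_lt_card hcard
  refine le_trans (le_of_eq ?_) (proj_le_big hr A)
  symm
  apply Finset.card_image_of_injOn
  intro p hp q hq h
  have h0 : (p.1 : ℚ) + r * p.2 = q.1 + r * q.2 := h
  by_contra hne
  have h2 : (p.2 : ℚ) - q.2 ≠ 0 := by
    intro h3
    have h4 : (p.2 : ℚ) = q.2 := by linarith
    rw [h4] at h0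
    have h5 : (p.1 : ℚ) = q.1 := by linarith
    exact hne (Prod.ext (by exact_mod_cast h5) (by exact_mod_cast h4))
  apply hrb
  rw [hbad]
  refine mem_image.2 ⟨(p, q), mem_product.2 ⟨hp, hq⟩, ?_⟩
  simp only
  rw [div_eq_iff h2]
  linarith

/-- Part 3 -/
theorem part3 (ε : ℝ) (hε : 0 < ε) : ∃ S : Finset ℚ, (-1 : ℚ) ∉ S ∧ ∃ δ : ℝ, 0 < δ ∧
    ∀ A : Finset (ℤ × ℤ), Set.InjOn (fun p : ℤ × ℤ => p.1 - p.2) (A : Set (ℤ × ℤ)) →
      (A.card : ℝ) ^ (3 - δ) ≤ (A.addEnergy A : ℕ) →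
      ((proj (-1) A).card : ℝ) ≤ (big S A : ℝ) ^ (1 + ε) := by
  classical
  obtain ⟨n, hn⟩ := exists_nat_ge (2 / ε + 1)
  have hn1 : 1 ≤ n := by
    have : (1 : ℝ) ≤ n := le_trans (by linarith [div_pos two_pos hε]) hn
    exact_mod_cast this
  obtain ⟨C, hC⟩ := slopes (rng n) (neg_one_notMem_rng n)
  set M0 : ℕ := (8 ^ n * (2 ^ 22) ^ C) ^ 4 with hM0
  set L : ℕ := n + M0 ^ 2 with hL
  refine ⟨rng L, neg_one_notMem_rng L, 1 / (4 * (n + 10 * C)), by positivity,
    fun A hinj hE => ?_⟩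
  set δ : ℝ := 1 / (4 * ((n : ℝ) + 10 * C)) with hδ
  rcases A.eq_empty_or_nonempty with rfl | hA
  · simp only [proj, Finset.image_empty, Finset.card_empty, Nat.cast_zero]
    exact Real.rpow_nonneg (Nat.cast_nonneg _) _
  have hc : (1 : ℝ) ≤ A.card := by exact_mod_cast hA.card_pos
  have hbigL : (1 : ℝ) ≤ (big (rng L) A : ℝ) := by exact_mod_cast big_pos hA
  have hpA : ∀ B ⊆ A, (proj (-1) B).card = B.card := by
    intro B hB
    rw [← card_psi]
    apply Finset.card_image_of_injOn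
    intro p hp q hq h
    exact hinj (hB hp) (hB hq) h
  by_cases hsmall : A.card < M0
  · have h1 : A.card ^ 2 < L := by
      have : A.card ^ 2 ≤ M0 ^ 2 := Nat.pow_le_pow_left hsmall.le 2
      omega
    rw [hpA A (Finset.Subset.refl A)]
    calc (A.card : ℝ) ≤ (big (rng L) A : ℝ) := by exact_mod_cast small_sets h1
      _ = (big (rng L) A : ℝ) ^ (1 : ℝ) := (Real.rpow_one _).symm
      _ ≤ _ := Real.rpow_le_rpow_of_exponent_le hbigL (by linarith)
  push Not at hsmall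
  have hbig : (1 : ℝ) ≤ (big (rng n) A : ℝ) := by exact_mod_cast big_pos hA
  have hcp : (0 : ℝ) < A.card := by linarith
  set K : ℝ := (A.card : ℝ) ^ δ with hK
  have hK0 : 0 < K := Real.rpow_pos_of_pos hcp _
  have hEK : (A.card : ℝ) ^ 3 ≤ K * (A.addEnergy A : ℕ) := by
    calc (A.card : ℝ) ^ 3 = K * (A.card : ℝ) ^ (3 - δ) := by
          rw [hK, ← Real.rpow_add hcp, ← Real.rpow_natCast]
          congr 1; push_cast; ring
      _ ≤ K * (A.addEnergy A : ℕ) := mul_le_mul_of_nonneg_left hE hK0.le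
  obtain ⟨B, hBA, hB, hAB, hBB⟩ := bsg A hA K hK0 hEK
  have hBc : (0 : ℝ) < B.card := by exact_mod_cast hB.card_pos
  have h1 := hC B hB (2 ^ 22 * K ^ 10) (by positivity) (card_BB_of_sub hB hBB)
  rw [hpA B hBA, card_rng] at h1
  have h2 : (A.card : ℝ) ^ n ≤ (8 * K) ^ n * ((2 ^ 22 * K ^ 10) ^ C *
      (big (rng n) A : ℝ) ^ (n + 1)) := by
    calc (A.card : ℝ) ^ n ≤ (8 * K * B.card) ^ n := pow_le_pow_left₀ hcp.le hAB n
      _ = (8 * K) ^ n * (B.card : ℝ) ^ n := mul_pow _ _ _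
      _ ≤ (8 * K) ^ n * ((2 ^ 22 * K ^ 10) ^ C * (big (rng n) A : ℝ) ^ (n + 1)) := by
          apply mul_le_mul_of_nonneg_left _ (by positivity)
          refine h1.trans ?_
          apply mul_le_mul_of_nonneg_left _ (by positivity)
          have := prod_le_big (rng n) hBA
          rwa [card_rng] at this
  have hA2 : (A.card : ℝ) ≤ (big (rng n) A : ℝ) ^ 2 := by
    exact_mod_cast card_le_sq (zero_mem_rng hn1) A
  have hq : (A.card : ℝ) ^ (1 / 4 : ℝ) * (A.card : ℝ) ^ (1 / 4 : ℝ) ≤ (big (rng n) A : ℝ) := by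
    rw [← Real.rpow_add hcp]
    calc (A.card : ℝ) ^ (1 / 4 + 1 / 4 : ℝ)
        ≤ ((big (rng n) A : ℝ) ^ 2) ^ (1 / 4 + 1 / 4 : ℝ) :=
          Real.rpow_le_rpow hcp.le hA2 (by norm_num)
      _ = (big (rng n) A : ℝ) := by
          rw [← Real.rpow_natCast, ← Real.rpow_mul (by linarith)]
          norm_num
  have hnC : (0 : ℝ) < (n : ℝ) + 10 * C := by
    have : (1 : ℝ) ≤ n := by exact_mod_cast hn1
    have : (0 : ℝ) ≤ C := Nat.cast_nonneg C
    linarith
  have hKp : K ^ (n + 10 * C) = (A.card : ℝ) ^ (1 / 4 : ℝ) := by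
    rw [hK, ← Real.rpow_natCast, ← Real.rpow_mul hcp.le]
    congr 1
    rw [hδ]; push_cast
    field_simp
  have hconst : (8 : ℝ) ^ n * (2 ^ 22) ^ C ≤ (A.card : ℝ) ^ (1 / 4 : ℝ) := by
    have h3 : (((8 : ℝ) ^ n * (2 ^ 22) ^ C) ^ 4) ≤ A.card := by
      have h4 : (M0 : ℝ) ≤ A.card := by exact_mod_cast hsmall
      have h5 : (M0 : ℝ) = ((8 : ℝ) ^ n * (2 ^ 22) ^ C) ^ 4 := by
        rw [hM0, Nat.cast_pow, Nat.cast_mul, Nat.cast_pow, Nat.cast_pow, Nat.cast_pow]
        norm_num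
      rw [← h5]
      exact h4
    have h6 : (0 : ℝ) ≤ (8 : ℝ) ^ n * (2 ^ 22) ^ C := by positivity
    revert h3 h6
    generalize (8 : ℝ) ^ n * (2 ^ 22) ^ C = Q
    intro h3 h6
    calc Q = (Q ^ (4 : ℕ)) ^ (1 / 4 : ℝ) := by
          rw [← Real.rpow_natCast Q 4, ← Real.rpow_mul h6]
          norm_num
      _ ≤ _ := Real.rpow_le_rpow (pow_nonneg h6 4) h3 (by norm_num)
  rw [hpA A (Finset.Subset.refl A)]
  have hfin : (A.card : ℝ) ≤ (big (rng n) A : ℝ) ^ (1 + ε) := by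
    apply root_step hn1 (by linarith) hε (Nat.cast_nonneg _) hbig
    calc (A.card : ℝ) ^ n ≤ _ := h2
      _ = ((8 : ℝ) ^ n * (2 ^ 22) ^ C) * K ^ (n + 10 * C) * (big (rng n) A : ℝ) ^ (n + 1) := by
          rw [mul_pow, mul_pow, pow_add, ← pow_mul K 10 C]; ring
      _ ≤ (A.card : ℝ) ^ (1 / 4 : ℝ) * (A.card : ℝ) ^ (1 / 4 : ℝ) *
          (big (rng n) A : ℝ) ^ (n + 1) := by
          rw [hKp]
          apply mul_le_mul_of_nonneg_right _ (by positivity)
          exact mul_le_mul_of_nonneg_right hconst (by positivity)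
      _ ≤ (big (rng n) A : ℝ) * (big (rng n) A : ℝ) ^ (n + 1) :=
          mul_le_mul_of_nonneg_right hq (by positivity)
      _ = _ := by ring
  refine hfin.trans ?_
  apply Real.rpow_le_rpow (by linarith) _ (by linarith)
  exact_mod_cast big_mono (rng_mono (by omega)) A

end Pool.Agent.H217R3.AK
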