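import Mathlib
import Pool.Agent.H217R3.AK.Slopes

set_option autoImplicit false

/-! # Sharpness of the exponent -/

open Finset
open scoped Pointwise

namespace Pool.Agent.H217R3.AK

theorem card_proj_le (r : ℚ) (A : Finset (ℤ × ℤ)) : (proj r A).card ≤ (A.image (det (dir r))).card := by
  have h : (A.image (det (dir r))).image (fun t : ℤ => (t : ℚ)) =
      (proj r A).image (fun q : ℚ => -(r.den : ℚ) * q) := by
    unfold proj
    rw [Finset.image_image, Finset.image_image]
    congr 1
    funext p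
    simp only [Function.comp, det, dir]
    push_cast
    have h1 : (r.den : ℚ) * r = r.num := by
      rw [mul_comm]; exact Rat.mul_den_eq_num r
    linear_combination (p.2 : ℚ) * h1
  have hd : -(r.den : ℚ) ≠ 0 := neg_ne_zero.2 (by exact_mod_cast r.den_nz)
  calc (proj r A).card = ((proj r A).image (fun q : ℚ => -(r.den : ℚ) * q)).card :=
        (Finset.card_image_of_injective _ (mul_right_injective₀ hd)).symm
    _ = ((A.image (det (dir r))).image (fun t : ℤ => (t : ℚ))).card := by rw [h]
    _ ≤ _ := Finset.card_image_le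

theorem card_projInf_le (A : Finset (ℤ × ℤ)) : (projInf A).card ≤ (A.image (det (1, 0))).card := by
  have h : (A.image (det (1, 0))).image (fun t : ℤ => (t : ℚ)) = projInf A := by
    unfold projInf
    rw [Finset.image_image]
    congr 1
    funext p
    simp only [Function.comp, det]
    push_cast; ring
  rw [← h]
  exact Finset.card_image_le

/-- the weights -/
def wt {n : ℕ} (e : Fin (n + 1) → ℤ × ℤ) (m : ℕ) (i : Fin (n + 1)) : ℤ :=
  (m : ℤ) ^ (i : ℕ) * ∏ l ∈ univ.erase i, psi (e l)

/-- the generalised progression map -/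
def gap {n : ℕ} (e : Fin (n + 1) → ℤ × ℤ) (m : ℕ) (t : Fin (n + 1) → ℕ) : ℤ × ℤ :=
  ∑ i, (t i : ℤ) • (wt e m i • e i)

theorem psi_gap {n : ℕ} (e : Fin (n + 1) → ℤ × ℤ) (m : ℕ) (t : Fin (n + 1) → ℕ) :
    psi (gap e m t) = ((∑ i, t i * m ^ (i : ℕ) : ℕ) : ℤ) * ∏ l, psi (e l) := by
  unfold gap
  rw [psi_sum]
  push_cast
  rw [Finset.sum_mul]
  refine Finset.sum_congr rfl fun i _ => ?_
  rw [psi_smul, psi_smul, wt, ← Finset.mul_prod_erase univ (fun l => psi (e l)) (mem_univ i)]
  ring

theorem gap_add {n : ℕ} (e : Fin (n + 1) → ℤ × ℤ) (m : ℕ) (t s : Fin (n + 1) → ℕ) :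
    gap e m t + gap e m s = gap e m (fun i => t i + s i) := by
  unfold gap
  rw [← Finset.sum_add_distrib]
  refine Finset.sum_congr rfl fun i _ => ?_
  push_cast
  rw [add_smul]

theorem det_gap {n : ℕ} (e : Fin (n + 1) → ℤ × ℤ) (m : ℕ) (t s : Fin (n + 1) → ℕ) (j : Fin (n + 1))
    (h : ∀ i, i ≠ j → t i = s i) : det (e j) (gap e m t) = det (e j) (gap e m s) := by
  unfold gap
  rw [det_sum, det_sum]
  refine Finset.sum_congr rfl fun i _ => ?_
  by_cases hij : i = j
  · subst hij
    simp only [det_smul_right, det_self, mul_zero]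
  · rw [h i hij]

theorem sharp {n : ℕ} (e : Fin (n + 1) → ℤ × ℤ) (hpsi : ∀ i, psi (e i) ≠ 0) (m : ℕ) (hm : 1 ≤ m) :
    ∃ A : Finset (ℤ × ℤ), A.Nonempty ∧ (A + A).card ≤ 2 ^ (n + 1) * A.card ∧
      A.card = m ^ (n + 1) ∧ (A.image psi).card = m ^ (n + 1) ∧
      ∀ j, (A.image (det (e j))).card ≤ m ^ n := by
  classical
  set f : (Fin (n + 1) → Fin m) → ℤ × ℤ := fun t => gap e m (fun i => (t i : ℕ)) with hf
  have hD : ∏ l, psi (e l) ≠ 0 := Finset.prod_ne_zero_iff.2 fun l _ => hpsi l
  have hinj : Function.Injective (fun t => psi (f t)) := by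
    intro t s h
    simp only [hf] at h
    rw [psi_gap, psi_gap] at h
    have h1 := mul_right_cancel₀ hD h
    have h2 : (∑ i, (t i : ℕ) * m ^ (i : ℕ)) = ∑ i, (s i : ℕ) * m ^ (i : ℕ) := by exact_mod_cast h1
    have h3 : finFunctionFinEquiv t = finFunctionFinEquiv s := by
      apply Fin.ext
      rw [finFunctionFinEquiv_apply, finFunctionFinEquiv_apply]
      exact h2
    exact finFunctionFinEquiv.injective h3
  have hfinj : Function.Injective f := fun t s h => hinj (by simp only [h])
  have hcard : (univ.image f).card = m ^ (n + 1) := by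
    rw [Finset.card_image_of_injective _ hfinj, Finset.card_univ, Fintype.card_fun, Fintype.card_fin,
      Fintype.card_fin]
  refine ⟨univ.image f, ?_, ?_, hcard, ?_, ?_⟩
  · rw [← Finset.card_pos, hcard]; positivity
  · rw [hcard]
    have hsub : univ.image f + univ.image f ⊆
        (univ : Finset (Fin (n + 1) → Fin (2 * m))).image (fun t => gap e m (fun i => (t i : ℕ))) := by
      intro z hz
      obtain ⟨u, hu, v, hv, rfl⟩ := Finset.mem_add.1 hz
      obtain ⟨t, _, rfl⟩ := mem_image.1 hu
      obtain ⟨s, _, rfl⟩ := mem_image.1 hv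
      refine mem_image.2 ⟨fun i => ⟨(t i : ℕ) + (s i : ℕ), by have := (t i).2; have := (s i).2; omega⟩,
        mem_univ _, ?_⟩
      simp only [hf]
      rw [gap_add]
    calc (univ.image f + univ.image f).card ≤ _ := Finset.card_le_card hsub
      _ ≤ (univ : Finset (Fin (n + 1) → Fin (2 * m))).card := Finset.card_image_le
      _ = (2 * m) ^ (n + 1) := by
        rw [Finset.card_univ, Fintype.card_fun, Fintype.card_fin, Fintype.card_fin]
      _ = _ := mul_pow _ _ _
  · rw [Finset.image_image]
    have : Function.Injective (psi ∘ f) := hinj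
    rw [Finset.card_image_of_injective _ this, Finset.card_univ, Fintype.card_fun, Fintype.card_fin,
      Fintype.card_fin]
  · intro j
    set z0 : Fin m := ⟨0, hm⟩ with hz0
    have hsub : (univ.image f).image (det (e j)) ⊆
        (univ : Finset (Fin n → Fin m)).image (fun t' => det (e j)
          (f (Fin.insertNth (α := fun _ => Fin m) j z0 t'))) := by
      intro z hz
      rw [Finset.image_image] at hz
      obtain ⟨t, _, rfl⟩ := mem_image.1 hz
      refine mem_image.2 ⟨fun i => t (j.succAbove i), mem_univ _, ?_⟩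
      simp only [hf, Function.comp]
      apply det_gap
      intro i hi
      obtain ⟨k, rfl⟩ := Fin.exists_succAbove_eq hi
      rw [Fin.insertNth_apply_succAbove]
    calc _ ≤ _ := Finset.card_le_card hsub
      _ ≤ (univ : Finset (Fin n → Fin m)).card := Finset.card_image_le
      _ = m ^ n := by
        rw [Finset.card_univ, Fintype.card_fun, Fintype.card_fin, Fintype.card_fin]

theorem part4 (S : Finset ℚ) (hS : (-1 : ℚ) ∉ S) (m : ℕ) (hm : 1 ≤ m) :
    ∃ A : Finset (ℤ × ℤ), A.Nonempty ∧ (A + A).card ≤ 2 ^ (S.card + 1) * A.card ∧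
      A.card = m ^ (S.card + 1) ∧ (proj (-1) A).card = m ^ (S.card + 1) ∧
      (projInf A).card ≤ m ^ S.card ∧ ∀ r ∈ S, (proj r A).card ≤ m ^ S.card := by
  classical
  set n := S.card with hn
  set g : Fin n ≃ S := (S.equivFin).symm with hg
  set e : Fin (n + 1) → ℤ × ℤ := Fin.cons (1, 0) (fun i => dir (g i : ℚ)) with he
  have he0 : e 0 = (1, 0) := rfl
  have hes : ∀ i : Fin n, e i.succ = dir (g i : ℚ) := fun i => rfl
  have hpsi : ∀ i, psi (e i) ≠ 0 := by
    intro i
    refine Fin.cases ?_ (fun i => ?_) i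
    · rw [he0]; simp [psi]
    · rw [hes]
      intro h
      simp only [psi, dir] at h
      apply hS
      have h1 : (g i : ℚ) = -1 := by
        rw [← Rat.num_div_den (g i : ℚ)]
        have h2 : ((g i : ℚ).den : ℚ) ≠ 0 := by
          exact_mod_cast (g i : ℚ).den_nz
        rw [div_eq_iff h2]
        have h3 : (g i : ℚ).num = -((g i : ℚ).den : ℤ) := by linarith
        rw [h3]; push_cast; ring
      rw [← h1]
      exact (g i).2
  obtain ⟨A, h1, h2, h3, h4, h5⟩ := sharp e hpsi m hm
  refine ⟨A, h1, h2, h3, by rw [← card_psi]; exact h4, ?_, ?_⟩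
  · have := h5 0
    rw [he0] at this
    exact (card_projInf_le A).trans this
  · intro r hr
    have h6 := h5 (g.symm ⟨r, hr⟩).succ
    rw [hes, Equiv.apply_symm_apply] at h6
    exact (card_proj_le r A).trans h6

end Pool.Agent.H217R3.AK
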